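import Mathlib

/-!
# A lattice is determined by its Eisenstein series
-/

set_option autoImplicit false

open Filter Topology

namespace Pool.Agent.K4H87.SP

open PeriodPair

theorem near_zero {L L' : PeriodPair} (hG : ∀ k, 3 ≤ k → L.G k = L'.G k) :
    ∀ᶠ z in 𝓝 (0 : ℂ), L.weierstrassPExcept 0 z = L'.weierstrassPExcept 0 z := by
  have h1 := L.hasFPowerSeriesAt_weierstrassPExcept 0
  have h2 := L'.hasFPowerSeriesAt_weierstrassPExcept 0
  have h3 : (fun i : ℕ => if i = 0 then L.weierstrassPExcept 0 0 else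
      ((i : ℂ) + 1) * L.sumInvPow 0 (i + 2)) = fun i : ℕ => if i = 0 then
      L'.weierstrassPExcept 0 0 else ((i : ℂ) + 1) * L'.sumInvPow 0 (i + 2) := by
    funext i
    rcases Nat.eq_zero_or_pos i with rfl | hi
    · simp
    · rw [if_neg hi.ne', if_neg hi.ne', sumInvPow_zero, sumInvPow_zero, hG (i + 2) (by omega)]
  rw [h3] at h1
  have h4 := h1.sub h2
  rw [sub_self] at h4
  filter_upwards [h4.eventually_eq_zero] with z hz
  exact sub_eq_zero.1 hz

theorem lattice_le_of_G {L L' : PeriodPair} (hG : ∀ k, 3 ≤ k → L.G k = L'.G k) :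
    ∀ x ∈ L.lattice, x ∈ L'.lattice := by
  intro x hx
  by_contra hx'
  set D : ℂ → ℂ := L.weierstrassP - L'.weierstrassP with hD
  have hm : MeromorphicOn D Set.univ := fun z _ =>
    (L.meromorphic_weierstrassP z).sub (L'.meromorphic_weierstrassP z)
  have h0 : meromorphicOrderAt D 0 = ⊤ := by
    rw [meromorphicOrderAt_eq_top_iff]
    have h1 := near_zero hG
    have h2 : ∀ᶠ z in 𝓝[≠] (0 : ℂ), L.weierstrassPExcept 0 z = L'.weierstrassPExcept 0 z :=
      h1.filter_mono nhdsWithin_le_nhds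
    filter_upwards [h2] with z hz
    have e1 := L.weierstrassPExcept_add ⟨0, zero_mem _⟩ z
    have e2 := L'.weierstrassPExcept_add ⟨0, zero_mem _⟩ z
    rw [hD, Pi.sub_apply, ← e1, ← e2]
    simp only
    rw [hz, sub_self]
  have h1 : meromorphicOrderAt D x = ⊤ := by
    by_contra hne
    have h2 := (hm.exists_meromorphicOrderAt_ne_top_iff_forall isConnected_univ).1
      ⟨⟨x, Set.mem_univ _⟩, hne⟩ ⟨0, Set.mem_univ _⟩
    exact h2 h0
  rw [meromorphicOrderAt_eq_top_iff] at h1
  have h2 : L.weierstrassP =ᶠ[𝓝[≠] x] L'.weierstrassP := by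
    filter_upwards [h1] with z hz
    exact sub_eq_zero.1 hz
  have h3 := meromorphicOrderAt_congr h2
  rw [L.order_weierstrassP x hx] at h3
  have h4 := (L'.analyticOnNhd_weierstrassP x hx').meromorphicOrderAt_nonneg
  rw [← h3] at h4
  exact absurd h4 (by decide)

end Pool.Agent.K4H87.SP
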